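import Pool.Agent.U544.LS.Rec

/-! Examples of sets of Bohr recurrence. -/

set_option autoImplicit false

namespace Pool.Agent.U544.LS

open Filter Topology

/-- the values of a polynomial -/
theorem poly_recurrent (P : Polynomial ℤ) (h0 : P.coeff 0 = 0) (hlead : 0 < P.leadingCoeff) :
    IsBohrRecurrent {n : ℕ | ∃ k : ℕ, (n : ℤ) = P.eval (k : ℤ)} := by
  classical
  intro E hE δ hδ n₀
  have hP0 : P ≠ 0 := fun h => by rw [h] at hlead; simp at hlead
  have hd : 1 ≤ P.natDegree := by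
    by_contra h
    have h1 : P.natDegree = 0 := by omega
    have h2 : P.leadingCoeff = 0 := by
      rw [Polynomial.leadingCoeff, h1, h0]
    omega
  obtain ⟨U, hU, hlim⟩ := exists_ultra (rc_all P.natDegree hd)
  -- the values tend to infinity
  have htop : Tendsto (fun k : ℕ => ((P.eval (k : ℤ) : ℤ) : ℝ)) atTop atTop := by
    set Q : Polynomial ℝ := P.map (Int.castRingHom ℝ) with hQ
    have h1 : Tendsto (fun x : ℝ => Q.eval x) atTop atTop := by
      refine Polynomial.tendsto_atTop_of_leadingCoeff_nonneg Q ?_ ?_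
      · rw [hQ, Polynomial.degree_map_eq_of_injective (RingHom.injective_int _)]
        exact Polynomial.natDegree_pos_iff_degree_pos.1 hd
      · rw [hQ, Polynomial.leadingCoeff_map_of_injective (RingHom.injective_int _)]
        simpa using hlead.le
    have h2 := h1.comp (tendsto_natCast_atTop_atTop (R := ℝ))
    refine h2.congr fun k => ?_
    show Q.eval (k : ℝ) = _
    rw [hQ, Polynomial.eval_map, show ((k : ℕ) : ℝ) = (Int.castRingHom ℝ) (k : ℤ) by simp,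
      Polynomial.eval₂_at_apply]
    simp
  have hge : ∀ᶠ k : ℕ in (U : Filter ℕ), (n₀ : ℤ) ≤ P.eval (k : ℤ) := by
    refine hU ?_
    filter_upwards [htop.eventually_ge_atTop (n₀ : ℝ)] with k hk
    exact_mod_cast hk
  have hz : ∀ ζ ∈ E, Tendsto (fun k : ℕ => ζ ^ (P.eval (k : ℤ))) U (𝓝 1) := by
    intro ζ hζ
    have hne : ζ ≠ 0 := fun h => by
      have := hE ζ hζ
      rw [h, norm_zero] at this
      exact zero_ne_one this
    have h1 := tendsto_finsetProd (f := fun (e : ℕ) (k : ℕ) => (ζ ^ (k ^ e)) ^ (P.coeff e))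
      (a := fun _ => (1 : ℂ)) (x := (U : Filter ℕ)) (Finset.range (P.natDegree + 1))
      fun e he => by
        rcases Nat.eq_zero_or_pos e with h | h
        · rw [h, h0]
          simp only [zpow_zero]
          exact tendsto_const_nhds
        · have h2 := hlim ζ (hE ζ hζ) e h (by rw [Finset.mem_range] at he; omega)
          have h3 := h2.zpow₀ (P.coeff e) (Or.inl one_ne_zero)
          rwa [one_zpow] at h3
    simp only [Finset.prod_const_one] at h1
    refine h1.congr fun k => ?_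
    rw [Polynomial.eval_eq_sum_range]
    have h4 : ∀ s : Finset ℕ, ζ ^ (∑ e ∈ s, P.coeff e * (k : ℤ) ^ e) =
        ∏ e ∈ s, (ζ ^ (k ^ e)) ^ (P.coeff e) := by
      intro s
      induction s using Finset.induction_on with
      | empty => simp
      | insert e s he ih =>
        rw [Finset.sum_insert he, Finset.prod_insert he, zpow_add₀ hne, ih, mul_comm (P.coeff e),
          zpow_mul, ← zpow_natCast ζ (k ^ e)]
        push_cast
        rfl
    exact (h4 _).symm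
  have hev : ∀ᶠ k : ℕ in (U : Filter ℕ), ∀ ζ ∈ E, ‖ζ ^ (P.eval (k : ℤ)) - 1‖ < δ := by
    rw [Filter.eventually_all_finset]
    intro ζ hζ
    have := (Metric.tendsto_nhds.1 (hz ζ hζ)) δ hδ
    simpa only [dist_eq_norm] using this
  obtain ⟨k, h1, h2⟩ := (hge.and hev).exists
  have h3 : (((P.eval (k : ℤ)).toNat : ℕ) : ℤ) = P.eval (k : ℤ) :=
    Int.toNat_of_nonneg (le_trans (Int.natCast_nonneg _) h1)
  refine ⟨(P.eval (k : ℤ)).toNat, ⟨k, h3⟩, by omega, fun ζ hζ => ?_⟩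
  have h4 := h2 ζ hζ
  rwa [← h3, zpow_natCast] at h4

/-- the powers with a fixed exponent -/
theorem pow_recurrent {d : ℕ} (hd : 1 ≤ d) : IsBohrRecurrent {n : ℕ | ∃ k : ℕ, n = k ^ d} := by
  refine (poly_recurrent (Polynomial.X ^ d) ?_ ?_).mono ?_
  · rw [Polynomial.coeff_X_pow, if_neg (by omega)]
  · rw [Polynomial.leadingCoeff_X_pow]
    exact one_pos
  · rintro n ⟨k, hk⟩
    refine ⟨k, ?_⟩
    rw [Polynomial.eval_pow, Polynomial.eval_X] at hk
    exact_mod_cast hk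

/-- difference sets -/
theorem diff_recurrent {s : ℕ → ℕ} (hs : StrictMono s) :
    IsBohrRecurrent {n : ℕ | ∃ i j : ℕ, i < j ∧ n = s j - s i} := by
  classical
  intro E hE δ hδ n₀
  let x : ℕ → E → ℂ := fun k ζ => (ζ : ℂ) ^ (s k)
  have hK : IsCompact (Set.pi Set.univ fun _ : E => Metric.closedBall (0 : ℂ) 1) :=
    isCompact_univ_pi fun _ => isCompact_closedBall _ _
  have hx : ∀ k, x k ∈ Set.pi Set.univ fun _ : E => Metric.closedBall (0 : ℂ) 1 := by
    intro k ζ _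
    rw [Metric.mem_closedBall, dist_zero_right]
    show ‖(ζ : ℂ) ^ (s k)‖ ≤ 1
    rw [norm_pow, hE ζ ζ.2, one_pow]
  obtain ⟨y, -, φ, hφ, hy⟩ := hK.tendsto_subseq hx
  have hcs := hy.cauchySeq
  rw [Metric.cauchySeq_iff] at hcs
  obtain ⟨N, hN⟩ := hcs δ hδ
  have hm : StrictMono (s ∘ φ) := hs.comp hφ
  have hgap : ∀ k, s (φ N) + k ≤ s (φ (N + k)) := by
    intro k
    induction k with
    | zero => exact le_rfl
    | succ k ih =>
      have h2 : s (φ (N + k)) < s (φ (N + (k + 1))) := hm (by omega)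
      omega
  have h1 := hN (N + (n₀ + 1)) (by omega) N le_rfl
  have hg := hgap (n₀ + 1)
  refine ⟨s (φ (N + (n₀ + 1))) - s (φ N), ⟨φ N, φ (N + (n₀ + 1)), hφ (by omega), rfl⟩, by omega,
    fun ζ hζ => ?_⟩
  have h2 := (dist_le_pi_dist ((x ∘ φ) (N + (n₀ + 1))) ((x ∘ φ) N) ⟨ζ, hζ⟩).trans_lt h1
  rw [dist_eq_norm] at h2
  have e : ((x ∘ φ) (N + (n₀ + 1)) ⟨ζ, hζ⟩) =
      ζ ^ (s (φ N) + (s (φ (N + (n₀ + 1))) - s (φ N))) := by
    show ζ ^ (s (φ (N + (n₀ + 1)))) = _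
    congr 1
    omega
  have e' : ((x ∘ φ) N ⟨ζ, hζ⟩) = ζ ^ (s (φ N)) := rfl
  rw [e, e', norm_pow_diff (hE ζ hζ)] at h2
  exact h2

/-- bounded gaps of the good numbers -/
theorem syndetic (E : Finset ℂ) (hE : ∀ ζ ∈ E, ‖ζ‖ = 1) {δ : ℝ} (hδ : 0 < δ) :
    ∃ L : ℕ, ∀ n : ℕ, ∃ j, 1 ≤ j ∧ j ≤ L ∧ ∀ ζ ∈ E, ‖ζ ^ (n + j) - 1‖ < δ := by
  classical
  let x : ℕ → E → ℂ := fun k ζ => (ζ : ℂ) ^ (k + 1)
  have hK : IsCompact (Set.pi Set.univ fun _ : E => Metric.closedBall (0 : ℂ) 1) :=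
    isCompact_univ_pi fun _ => isCompact_closedBall _ _
  have hx : Set.range x ⊆ Set.pi Set.univ fun _ : E => Metric.closedBall (0 : ℂ) 1 := by
    rintro _ ⟨k, rfl⟩ ζ _
    rw [Metric.mem_closedBall, dist_zero_right]
    show ‖(ζ : ℂ) ^ (k + 1)‖ ≤ 1
    rw [norm_pow, hE ζ ζ.2, one_pow]
  have htb : TotallyBounded (Set.range x) := hK.totallyBounded.subset hx
  obtain ⟨t, ht1, ht2, ht3⟩ := htb.exists_subset (Metric.dist_mem_uniformity
    (show (0 : ℝ) < δ / 2 by positivity))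
  have hidx : ∀ y ∈ t, ∃ k, x k = y := fun y hy => ht1 hy
  choose! κ hκ using hidx
  refine ⟨ht2.toFinset.sup κ + 1, fun n => ?_⟩
  obtain ⟨M, hM1, -, hM2⟩ := dirichlet E hE (δ := δ / 2) (by positivity) (n + 1)
  obtain ⟨y, hy⟩ := Set.mem_iUnion.1 (ht3 ⟨M - n - 1, rfl⟩)
  obtain ⟨hyt, hy2⟩ := Set.mem_iUnion.1 hy
  have hy3 : dist (x (M - n - 1)) y < δ / 2 := hy2
  refine ⟨κ y + 1, by omega, ?_, fun ζ hζ => ?_⟩
  · have : κ y ≤ ht2.toFinset.sup κ := Finset.le_sup (f := κ) ((Set.Finite.mem_toFinset _).2 hyt)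
    omega
  · have h1 := (dist_le_pi_dist (x (M - n - 1)) y ⟨ζ, hζ⟩).trans_lt hy3
    rw [← hκ y hyt, dist_eq_norm] at h1
    have e1 : x (M - n - 1) ⟨ζ, hζ⟩ = ζ ^ (M - n - 1 + 1) := rfl
    have e2 : x (κ y) ⟨ζ, hζ⟩ = ζ ^ (κ y + 1) := rfl
    rw [e1, e2] at h1
    have e3 : M = n + (M - n - 1 + 1) := by omega
    have h2 := hM2 ζ hζ
    rw [e3] at h2
    have h3 : ζ ^ (n + (κ y + 1)) - 1 = -(ζ ^ n * (ζ ^ (M - n - 1 + 1) - ζ ^ (κ y + 1))) +
        (ζ ^ (n + (M - n - 1 + 1)) - 1) := by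
      rw [pow_add ζ n, pow_add ζ n]
      ring
    rw [h3]
    refine (norm_add_le _ _).trans_lt ?_
    rw [norm_neg, norm_mul, norm_pow, hE ζ hζ, one_pow, one_mul]
    linarith

/-- sets which contain arbitrarily long blocks of consecutive numbers, arbitrarily far out -/
theorem blocks_recurrent {P : ℕ → Prop}
    (h : ∀ L n₀ : ℕ, ∃ n : ℕ, n₀ ≤ n ∧ ∀ k, n < k → k ≤ n + L → P k) :
    IsBohrRecurrent {n : ℕ | P n} := by
  intro E hE δ hδ n₀
  obtain ⟨L, hL⟩ := syndetic E hE hδ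
  obtain ⟨n, h1, h2⟩ := h L n₀
  obtain ⟨j, h3, h4, h5⟩ := hL n
  exact ⟨n + j, h2 _ (by omega) (by omega), by omega, h5⟩

end Pool.Agent.U544.LS
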