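import Mathlib

/-! Sets of Bohr recurrence; polynomial sequences. -/

set_option autoImplicit false

namespace Pool.Agent.U544.LS

open Filter Topology

/-- `S` is a set of Bohr recurrence: for finitely many complex numbers `ζ` of absolute value one there are
arbitrarily large `n ∈ S` such that all the `ζ ^ n` are close to `1` (the numbers `n θ_j` are simultaneously
close to integers, for given real `θ_1, …, θ_k`). -/
def IsBohrRecurrent (S : Set ℕ) : Prop :=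
  ∀ E : Finset ℂ, (∀ ζ ∈ E, ‖ζ‖ = 1) → ∀ δ : ℝ, 0 < δ → ∀ n₀ : ℕ,
    ∃ n ∈ S, n₀ ≤ n ∧ ∀ ζ ∈ E, ‖ζ ^ n - 1‖ < δ

theorem IsBohrRecurrent.mono {S T : Set ℕ} (h : IsBohrRecurrent S) (hST : S ⊆ T) :
    IsBohrRecurrent T := fun E hE δ hδ n₀ => by
  obtain ⟨n, h1, h2⟩ := h E hE δ hδ n₀
  exact ⟨n, hST h1, h2⟩

theorem norm_pow_diff {ζ : ℂ} (hζ : ‖ζ‖ = 1) (a b : ℕ) : ‖ζ ^ (a + b) - ζ ^ a‖ = ‖ζ ^ b - 1‖ := by
  have e : ζ ^ (a + b) - ζ ^ a = ζ ^ a * (ζ ^ b - 1) := by rw [pow_add]; ring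
  rw [e, norm_mul, norm_pow, hζ, one_pow, one_mul]

/-- Dirichlet -/
theorem dirichlet (E : Finset ℂ) (hE : ∀ ζ ∈ E, ‖ζ‖ = 1) {δ : ℝ} (hδ : 0 < δ) (n₀ : ℕ) :
    ∃ n : ℕ, n₀ ≤ n ∧ 1 ≤ n ∧ ∀ ζ ∈ E, ‖ζ ^ n - 1‖ < δ := by
  classical
  set q := n₀ + 1 with hq
  let x : ℕ → E → ℂ := fun k ζ => (ζ : ℂ) ^ (q * k)
  have hK : IsCompact (Set.pi Set.univ fun _ : E => Metric.closedBall (0 : ℂ) 1) :=
    isCompact_univ_pi fun _ => isCompact_closedBall _ _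
  have hx : ∀ k, x k ∈ Set.pi Set.univ fun _ : E => Metric.closedBall (0 : ℂ) 1 := by
    intro k ζ _
    rw [Metric.mem_closedBall, dist_zero_right]
    show ‖(ζ : ℂ) ^ (q * k)‖ ≤ 1
    rw [norm_pow, hE ζ ζ.2, one_pow]
  obtain ⟨y, -, φ, hφ, hy⟩ := hK.tendsto_subseq hx
  have hcs := hy.cauchySeq
  rw [Metric.cauchySeq_iff] at hcs
  obtain ⟨N, hN⟩ := hcs δ hδ
  have h1 := hN (N + 1) (by omega) N le_rfl
  have hlt : φ N < φ (N + 1) := hφ (Nat.lt_succ_self N)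
  refine ⟨q * (φ (N + 1) - φ N), ?_, ?_, fun ζ hζ => ?_⟩
  · have h3 : 1 ≤ φ (N + 1) - φ N := by omega
    nlinarith
  · have h3 : 1 ≤ φ (N + 1) - φ N := by omega
    have h4 : 1 ≤ q := by omega
    exact Nat.mul_pos h4 h3
  · have h2 := (dist_le_pi_dist ((x ∘ φ) (N + 1)) ((x ∘ φ) N) ⟨ζ, hζ⟩).trans_lt h1
    rw [dist_eq_norm] at h2
    have e : ((x ∘ φ) (N + 1) ⟨ζ, hζ⟩) = ζ ^ (q * φ N + q * (φ (N + 1) - φ N)) := by
      show ζ ^ (q * φ (N + 1)) = _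
      congr 1
      rw [← mul_add]
      congr 1
      omega
    have e' : ((x ∘ φ) N ⟨ζ, hζ⟩) = ζ ^ (q * φ N) := rfl
    rw [e, e', norm_pow_diff (hE ζ hζ)] at h2
    exact h2

/-- the property of simultaneous recurrence of the powers up to `d` -/
def Rc (d : ℕ) : Prop := ∀ E : Finset ℂ, (∀ ζ ∈ E, ‖ζ‖ = 1) → ∀ δ : ℝ, 0 < δ → ∀ n₀ : ℕ,
  ∃ n, n₀ ≤ n ∧ ∀ ζ ∈ E, ∀ e, 1 ≤ e → e ≤ d → ‖ζ ^ (n ^ e) - 1‖ < δ

theorem rc_one : Rc 1 := fun E hE δ hδ n₀ => by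
  obtain ⟨n, h1, -, h2⟩ := dirichlet E hE hδ n₀
  refine ⟨n, h1, fun ζ hζ e he1 he2 => ?_⟩
  have : e = 1 := le_antisymm he2 he1
  rw [this, pow_one]
  exact h2 ζ hζ

/-- an ultrafilter of good numbers -/
theorem exists_ultra {d : ℕ} (h : Rc d) : ∃ U : Ultrafilter ℕ, (U : Filter ℕ) ≤ atTop ∧
    ∀ ζ : ℂ, ‖ζ‖ = 1 → ∀ e, 1 ≤ e → e ≤ d → Tendsto (fun n : ℕ => ζ ^ (n ^ e)) U (𝓝 1) := by
  classical
  let A : Finset {ζ : ℂ // ‖ζ‖ = 1} × ℕ → Set ℕ := fun p =>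
    {n | p.2 ≤ n ∧ ∀ ζ ∈ p.1, ∀ e, 1 ≤ e → e ≤ d → ‖(ζ : ℂ) ^ (n ^ e) - 1‖ < 1 / ((p.2 : ℝ) + 1)}
  have hne : ∀ p, (A p).Nonempty := by
    rintro ⟨E, k⟩
    obtain ⟨n, h1, h2⟩ := h (E.map ⟨Subtype.val, Subtype.val_injective⟩) (by
      intro ζ hζ
      rw [Finset.mem_map] at hζ
      obtain ⟨z, _, rfl⟩ := hζ
      exact z.2) (1 / ((k : ℝ) + 1)) (by positivity) k
    exact ⟨n, h1, fun ζ hζ => h2 _ (Finset.mem_map_of_mem _ hζ)⟩
  let F : Filter ℕ := ⨅ p, 𝓟 (A p)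
  haveI : F.NeBot := by
    refine iInf_neBot_of_directed' ?_ fun p => principal_neBot_iff.2 (hne p)
    rintro ⟨E, k⟩ ⟨E', k'⟩
    refine ⟨(E ∪ E', max k k'), ?_, ?_⟩
    · simp only [ge_iff_le, le_principal_iff, mem_principal]
      rintro n ⟨h1, h2⟩
      refine ⟨(le_max_left _ _).trans h1, fun ζ hζ e he1 he2 => ?_⟩
      refine (h2 ζ (Finset.mem_union_left _ hζ) e he1 he2).trans_le ?_
      refine one_div_le_one_div_of_le (by positivity) ?_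
      have : (k : ℝ) ≤ ((max k k' : ℕ) : ℝ) := by exact_mod_cast le_max_left _ _
      linarith
    · simp only [ge_iff_le, le_principal_iff, mem_principal]
      rintro n ⟨h1, h2⟩
      refine ⟨(le_max_right _ _).trans h1, fun ζ hζ e he1 he2 => ?_⟩
      refine (h2 ζ (Finset.mem_union_right _ hζ) e he1 he2).trans_le ?_
      refine one_div_le_one_div_of_le (by positivity) ?_
      have : (k' : ℝ) ≤ ((max k k' : ℕ) : ℝ) := by exact_mod_cast le_max_right _ _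
      linarith
  refine ⟨Ultrafilter.of F, ?_, fun ζ hζ e he1 he2 => ?_⟩
  · intro s hs
    obtain ⟨k, hk⟩ := mem_atTop_sets.1 hs
    refine Ultrafilter.of_le F (mem_iInf_of_mem (∅, k) (mem_principal.2 ?_))
    rintro n ⟨h1, -⟩
    exact hk n h1
  · rw [Metric.tendsto_nhds]
    intro ε hε
    obtain ⟨k, hk⟩ := exists_nat_one_div_lt hε
    refine Ultrafilter.of_le F (mem_iInf_of_mem ({⟨ζ, hζ⟩}, k) (mem_principal.2 ?_))
    rintro n ⟨-, h2⟩
    show dist (ζ ^ (n ^ e)) 1 < ε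
    rw [dist_eq_norm]
    exact (h2 ⟨ζ, hζ⟩ (Finset.mem_singleton_self _) e he1 he2).trans hk

/-- the expansion -/
theorem expand (ζ : ℂ) (n s e : ℕ) (he : 1 ≤ e) : ζ ^ ((n + s) ^ e) =
    ζ ^ (n ^ e) * ζ ^ (s ^ e) *
      ∏ a ∈ Finset.Ioo 0 e, (ζ ^ (e.choose a * n ^ (e - a))) ^ (s ^ a) := by
  have h1 : (n + s) ^ e = n ^ e + s ^ e +
      ∑ a ∈ Finset.Ioo 0 e, e.choose a * n ^ (e - a) * s ^ a := by
    rw [add_comm n s, add_pow]
    have h2 : Finset.range (e + 1) = insert 0 (insert e (Finset.Ioo 0 e)) := by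
      ext a
      simp only [Finset.mem_range, Finset.mem_insert, Finset.mem_Ioo]
      omega
    rw [h2, Finset.sum_insert (by simp; omega), Finset.sum_insert (by simp)]
    simp only [pow_zero, one_mul, Nat.sub_zero, Nat.choose_zero_right, Nat.cast_one, mul_one,
      Nat.sub_self, Nat.choose_self, Nat.cast_id]
    rw [add_assoc]
    congr 2
    exact Finset.sum_congr rfl fun a _ => by ring
  rw [h1, pow_add, pow_add]
  congr 1
  rw [← Finset.prod_pow_eq_pow_sum]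
  exact Finset.prod_congr rfl fun a _ => pow_mul _ _ _

theorem rc_succ {d : ℕ} (hd : 1 ≤ d) (h : Rc d) : Rc (d + 1) := by
  classical
  obtain ⟨U, hU, hlim⟩ := exists_ultra h
  have hβ : ∀ ζ : ℂ, ∃ β : ℂ, ‖ζ‖ = 1 → ‖β‖ = 1 ∧
      Tendsto (fun n : ℕ => ζ ^ (n ^ (d + 1))) U (𝓝 β) := by
    intro ζ
    by_cases hζ : ‖ζ‖ = 1
    · have h1 : (Ultrafilter.map (fun n : ℕ => ζ ^ (n ^ (d + 1))) U : Filter ℂ) ≤
          𝓟 (Metric.sphere (0 : ℂ) 1) := by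
        rw [le_principal_iff]
        refine Filter.mem_map.2 (Filter.univ_mem' fun n => ?_)
        show ζ ^ (n ^ (d + 1)) ∈ Metric.sphere (0 : ℂ) 1
        rw [mem_sphere_zero_iff_norm, norm_pow, hζ, one_pow]
      obtain ⟨β, hβ1, hβ2⟩ := (isCompact_sphere (0 : ℂ) 1).ultrafilter_le_nhds _ h1
      exact ⟨β, fun _ => ⟨by rwa [mem_sphere_zero_iff_norm] at hβ1, hβ2⟩⟩
    · exact ⟨1, fun h => absurd h hζ⟩
  choose β hβ using hβ
  -- sums of `M` good numbers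
  have key : ∀ (M : ℕ) (E : Finset ℂ), (∀ ζ ∈ E, ‖ζ‖ = 1) → ∀ δ : ℝ, 0 < δ → ∀ n₀ : ℕ,
      ∃ n : ℕ, (1 ≤ M → n₀ ≤ n) ∧ ∀ ζ ∈ E, ‖ζ ^ (n ^ (d + 1)) - β ζ ^ M‖ < δ ∧
        ∀ e, 1 ≤ e → e ≤ d → ‖ζ ^ (n ^ e) - 1‖ < δ := by
    intro M
    induction M with
    | zero =>
      intro E hE δ hδ n₀
      refine ⟨0, fun h => absurd h (by norm_num), fun ζ _ => ⟨?_, fun e he1 _ => ?_⟩⟩
      · rw [zero_pow (by omega), pow_zero, pow_zero, sub_self, norm_zero]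
        exact hδ
      · rw [zero_pow (by omega), pow_zero, sub_self, norm_zero]
        exact hδ
    | succ M ih =>
      intro E hE δ hδ n₀
      obtain ⟨n, -, hn⟩ := ih E hE (δ / 2) (by positivity) n₀
      have hmix : ∀ ζ ∈ E, ∀ e, 1 ≤ e → e ≤ d + 1 → Tendsto (fun s : ℕ =>
          ∏ a ∈ Finset.Ioo 0 e, (ζ ^ (e.choose a * n ^ (e - a))) ^ (s ^ a)) U (𝓝 1) := by
        intro ζ hζ e he1 he2
        have h1 := tendsto_finsetProd (f := fun (a : ℕ) (s : ℕ) =>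
          (ζ ^ (e.choose a * n ^ (e - a))) ^ (s ^ a)) (a := fun _ => (1 : ℂ)) (x := (U : Filter ℕ))
          (Finset.Ioo 0 e) fun a ha => by
            rw [Finset.mem_Ioo] at ha
            exact hlim _ (by rw [norm_pow, hE ζ hζ, one_pow]) a (by omega) (by omega)
        simpa using h1
      have hd1 : ∀ ζ ∈ E, Tendsto (fun s : ℕ => ζ ^ ((n + s) ^ (d + 1))) U
          (𝓝 (ζ ^ (n ^ (d + 1)) * β ζ)) := by
        intro ζ hζ
        have h1 := ((tendsto_const_nhds (x := ζ ^ (n ^ (d + 1)))).mul (hβ ζ (hE ζ hζ)).2).mul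
          (hmix ζ hζ (d + 1) (by omega) le_rfl)
        rw [mul_one] at h1
        exact h1.congr fun s => (expand ζ n s (d + 1) (by omega)).symm
      have he1 : ∀ ζ ∈ E, ∀ e, 1 ≤ e → e ≤ d → Tendsto (fun s : ℕ => ζ ^ ((n + s) ^ e)) U
          (𝓝 (ζ ^ (n ^ e))) := by
        intro ζ hζ e he1 he2
        have h1 := ((tendsto_const_nhds (x := ζ ^ (n ^ e))).mul
          (hlim ζ (hE ζ hζ) e he1 he2)).mul (hmix ζ hζ e he1 (by omega))
        rw [mul_one, mul_one] at h1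
        exact h1.congr fun s => (expand ζ n s e he1).symm
      have hev1 : ∀ᶠ s : ℕ in (U : Filter ℕ), ∀ ζ ∈ E,
          ‖ζ ^ ((n + s) ^ (d + 1)) - ζ ^ (n ^ (d + 1)) * β ζ‖ < δ / 2 := by
        rw [Filter.eventually_all_finset]
        intro ζ hζ
        have := (Metric.tendsto_nhds.1 (hd1 ζ hζ)) (δ / 2) (by positivity)
        simpa only [dist_eq_norm] using this
      have hev2 : ∀ᶠ s : ℕ in (U : Filter ℕ), ∀ ζ ∈ E, ∀ e ∈ Finset.Icc 1 d,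
          ‖ζ ^ ((n + s) ^ e) - ζ ^ (n ^ e)‖ < δ / 2 := by
        rw [Filter.eventually_all_finset]
        intro ζ hζ
        rw [Filter.eventually_all_finset]
        intro e he
        rw [Finset.mem_Icc] at he
        have := (Metric.tendsto_nhds.1 (he1 ζ hζ e he.1 he.2)) (δ / 2) (by positivity)
        simpa only [dist_eq_norm] using this
      obtain ⟨s, hs1, hs2, hs3⟩ := (hev1.and (hev2.and
        (hU (Filter.eventually_ge_atTop n₀)))).exists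
      refine ⟨n + s, fun _ => hs3.trans (Nat.le_add_left _ _), fun ζ hζ => ⟨?_, fun e he1 he2 => ?_⟩⟩
      · have h1 := hs1 ζ hζ
        have h2 := (hn ζ hζ).1
        have h3 : ζ ^ ((n + s) ^ (d + 1)) - β ζ ^ (M + 1) =
            (ζ ^ ((n + s) ^ (d + 1)) - ζ ^ (n ^ (d + 1)) * β ζ) +
              (ζ ^ (n ^ (d + 1)) - β ζ ^ M) * β ζ := by ring
        rw [h3]
        refine (norm_add_le _ _).trans_lt ?_
        rw [norm_mul, (hβ ζ (hE ζ hζ)).1, mul_one]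
        linarith
      · have h1 := hs2 ζ hζ e (Finset.mem_Icc.2 ⟨he1, he2⟩)
        have h2 := (hn ζ hζ).2 e he1 he2
        have h3 : ζ ^ ((n + s) ^ e) - 1 = (ζ ^ ((n + s) ^ e) - ζ ^ (n ^ e)) + (ζ ^ (n ^ e) - 1) := by
          ring
        rw [h3]
        refine (norm_add_le _ _).trans_lt ?_
        linarith
  intro E hE δ hδ n₀
  obtain ⟨M, -, hM1, hM⟩ := dirichlet (E.image β) (by
    intro ξ hξ
    obtain ⟨ζ, hζ, rfl⟩ := Finset.mem_image.1 hξ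
    exact (hβ ζ (hE ζ hζ)).1) (δ := δ / 2) (by positivity) 0
  obtain ⟨n, hn1, hn2⟩ := key M E hE (δ / 2) (by positivity) n₀
  refine ⟨n, hn1 hM1, fun ζ hζ e he1 he2 => ?_⟩
  rcases Nat.lt_or_ge e (d + 1) with h1 | h1
  · have := (hn2 ζ hζ).2 e he1 (by omega)
    linarith
  · have he : e = d + 1 := le_antisymm he2 h1
    rw [he]
    have h2 := (hn2 ζ hζ).1
    have h3 := hM _ (Finset.mem_image_of_mem β hζ)
    have h4 : ζ ^ (n ^ (d + 1)) - 1 = (ζ ^ (n ^ (d + 1)) - β ζ ^ M) + (β ζ ^ M - 1) := by ring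
    rw [h4]
    exact (norm_add_le _ _).trans_lt (by linarith)

theorem rc_all : ∀ d : ℕ, 1 ≤ d → Rc d := by
  intro d hd
  induction d, hd using Nat.le_induction with
  | base => exact rc_one
  | succ d hd ih => exact rc_succ hd ih

end Pool.Agent.U544.LS
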