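import Pool.Agent.U156.LD.Rate
import Pool.Agent.U544.LS.Rec

/-!
# Li coefficients along sets of Bohr recurrence
-/

set_option autoImplicit false

open Complex Filter Topology Finset

namespace Pool.Agent.U544.LS

open Pool.Agent.N831.LI (Zs W li)
open Pool.Agent.U156.LD

noncomputable section

variable {M : ℂ → ℝ}

/-- a zero on the left of the line: arbitrarily large `n ∈ S` with a very negative coefficient -/
theorem grow_rec (hM : Zs M) {b : ℝ} (hb : 1 / 2 ≤ b) {z1 : ℂ} (h1 : M z1 ≠ 0) (h1r : z1.re < 0) {S : Set ℕ}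
    (hS : IsBohrRecurrent S) (n₀ : ℕ) : ∃ n ∈ S, n₀ ≤ n ∧ li M b n ≤ -(1 / 2 * ‖W b z1‖ ^ n) := by
  classical
  obtain ⟨R, E, hR, hne, hE, hmax⟩ := extreme hM hb h1 h1r.ne
  have hR0 : 0 < R := by linarith
  have hRc : (R : ℂ) ≠ 0 := by exact_mod_cast hR0.ne'
  have ht := li_osc hM hb hR hE hmax
  have hev : ∀ᶠ n : ℕ in atTop, |(li M b n + R ^ n * (FE M b R E n).re) / R ^ n| < 1 / 4 := by
    have := ht.abs
    rw [abs_zero] at this
    exact this.eventually (gt_mem_nhds (by norm_num))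
  obtain ⟨N, hN⟩ := eventually_atTop.1 hev
  obtain ⟨n, hnS, hn0, hn⟩ := hS (E.image fun z => W b z / (R : ℂ)) (by
    intro ζ hζ
    obtain ⟨z, hz, rfl⟩ := Finset.mem_image.1 hζ
    rw [norm_div, ((hE z).1 hz).2, Complex.norm_real, Real.norm_eq_abs, abs_of_pos hR0, div_self hR0.ne'])
    (1 / 4) (by norm_num) (max N n₀)
  refine ⟨n, hnS, (le_max_right _ _).trans hn0, ?_⟩
  have h2 := hN n ((le_max_left _ _).trans hn0)
  have hRn : 0 < R ^ n := by positivity
  -- the exponential sum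
  have h3 : 3 / 4 ≤ (FE M b R E n).re := by
    have h4 : (FE M b R E n).re = ∑ z ∈ E, M z * ((W b z / (R : ℂ)) ^ n).re := by
      unfold FE
      rw [Complex.re_sum]
      exact Finset.sum_congr rfl fun z _ => Complex.re_ofReal_mul _ _
    rw [h4]
    obtain ⟨z0, hz0⟩ := hne
    have h5 : ∀ z ∈ E, 3 / 4 * M z ≤ M z * ((W b z / (R : ℂ)) ^ n).re := by
      intro z hz
      have h6 := hn _ (Finset.mem_image_of_mem _ hz)
      have h7 := (Complex.abs_re_le_norm ((W b z / (R : ℂ)) ^ n - 1)).trans h6.le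
      rw [Complex.sub_re, Complex.one_re] at h7
      have h8 := (abs_le.1 h7).1
      rw [mul_comm]
      exact mul_le_mul_of_nonneg_left (by linarith) (hM.nn z)
    have h6 : 1 ≤ ∑ z ∈ E, M z :=
      (hM.one z0 ((hE z0).1 hz0).1).trans (Finset.single_le_sum (fun z _ => hM.nn z) hz0)
    calc (3 / 4 : ℝ) ≤ 3 / 4 * ∑ z ∈ E, M z := by linarith
      _ = ∑ z ∈ E, 3 / 4 * M z := by rw [Finset.mul_sum]
      _ ≤ _ := Finset.sum_le_sum h5
  rw [abs_div, abs_of_pos hRn, div_lt_iff₀ hRn] at h2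
  have h4 := (abs_lt.1 h2).2
  have h5 : R ^ n * (3 / 4) ≤ R ^ n * (FE M b R E n).re := mul_le_mul_of_nonneg_left h3 hRn.le
  have h6 : ‖W b z1‖ ^ n ≤ R ^ n := pow_le_pow_left₀ (norm_nonneg _) (hmax z1 h1) n
  linarith

/-- a lower bound on `S` gives a bound of the same exponential rate for all `n` -/
theorem bound_rec (hM : Zs M) {b : ℝ} (hb : 1 / 2 ≤ b) {S : Set ℕ} (hS : IsBohrRecurrent S) {r r' : ℝ}
    (hr : 1 ≤ r) (hr' : r < r') (h : ∀ᶠ n : ℕ in atTop, n ∈ S → -(r ^ n) ≤ li M b n) :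
    ∀ᶠ n : ℕ in atTop, |li M b n| ≤ r' ^ n := by
  have hr0 : 0 < r := by linarith
  have hr'0 : 0 < r' := by linarith
  -- all the zeros
  have hall : ∀ z, M z ≠ 0 → ‖W b z‖ ≤ r := by
    intro z hz
    by_contra hcon
    push Not at hcon
    have hre : z.re < 0 := by
      by_contra h2
      push Not at h2
      have h3 := norm_W_sq hb (hM.strip z hz)
      have h4 : 0 ≤ 4 * b * z.re / ((z.re + b) ^ 2 + z.im ^ 2) := by
        have hb0 : 0 < b := by linarith
        positivity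
      nlinarith [norm_nonneg (W b z)]
    have hq : 1 < ‖W b z‖ / r := by rw [lt_div_iff₀ hr0]; linarith
    have h3 := (tendsto_pow_atTop_atTop_of_one_lt hq).eventually_gt_atTop 2
    obtain ⟨N, hN⟩ := eventually_atTop.1 (h.and h3)
    obtain ⟨n, hnS, hn0, hn⟩ := grow_rec hM hb hz hre hS N
    obtain ⟨h4, h5⟩ := hN n hn0
    have h6 := h4 hnS
    rw [div_pow, lt_div_iff₀ (by positivity)] at h5
    linarith
  obtain ⟨C, hC, h1⟩ := upper hM hb hr hall
  have hlim : Tendsto (fun n : ℕ => C * ((n : ℝ) ^ 2 * (r / r') ^ n)) atTop (𝓝 0) := by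
    have h5 : Tendsto (fun n : ℕ => (n : ℝ) ^ 2 * (r / r') ^ n) atTop (𝓝 0) :=
      tendsto_pow_const_mul_const_pow_of_abs_lt_one 2 (by
        rw [abs_of_pos (by positivity), div_lt_one (by linarith)]
        exact hr')
    simpa using h5.const_mul C
  filter_upwards [hlim.eventually (gt_mem_nhds one_pos)] with n hn
  refine (h1 n).trans ?_
  have hr'n : 0 < r' ^ n := by
    have : 0 < r' := by linarith
    positivity
  have e : C * ((n : ℝ) ^ 2 * r ^ n) = (C * ((n : ℝ) ^ 2 * (r / r') ^ n)) * r' ^ n := by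
    rw [div_pow]
    field_simp
  rw [e]
  exact mul_le_of_le_one_left hr'n.le hn.le

end

end Pool.Agent.U544.LS
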