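import Pool.Agent.U156.LD.Pf
import Pool.Agent.U544.LS.Sp

/-!
# Li coefficients along sets of Bohr recurrence: completed L-functions
-/

set_option autoImplicit false

open Complex Filter Topology Finset
open scoped ComplexConjugate

namespace Pool.Agent.U544.LS

open Pool.Agent.N831.LI (Zs W li)
open Pool.Agent.N831.LP
open Pool.Agent.U156.LD

noncomputable section

variable {κ0 : ℝ}

/-- For arbitrarily large base points `a`, `λ_n(a) ≥ -exp (κ n / a)` for all large `n ∈ S`. -/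
def LowerS (S : Set ℕ) (L : ℝ → ℕ → ℝ) (κ : ℝ) : Prop :=
  ∃ᶠ a : ℝ in atTop, ∀ᶠ n : ℕ in atTop, n ∈ S → -Real.exp (κ * n / a) ≤ L a n

/-- the statements for one set `S` -/
structure SpG (Λ : ℂ → ℂ) (L : ℝ → ℕ → ℝ) (x : ℝ) (S : Set ℕ) : Prop where
  off : ∀ (a : ℝ) (s : ℂ), x + 1 ≤ a → Λ s = 0 → x < s.re →
      1 < ‖(s + a - 2 * x) / (s - a)‖ ∧ ∀ n₀ : ℕ, ∃ n ∈ S, n₀ ≤ n ∧
        L a n ≤ -(1 / 4 * ‖(s + a - 2 * x) / (s - a)‖ ^ n)
  bound : ∀ a r r' : ℝ, x + 1 ≤ a → 1 ≤ r → r < r' →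
      (∀ᶠ n : ℕ in atTop, n ∈ S → -(r ^ n) ≤ L a n) → ∀ᶠ n : ℕ in atTop, |L a n| ≤ r' ^ n
  rh : ∀ a : ℝ, x + 1 ≤ a → List.TFAE [∀ s : ℂ, Λ s = 0 → s.re = x,
      ∀ n : ℕ, 1 ≤ n → 0 < L a n,
      ∀ᶠ n : ℕ in atTop, n ∈ S → 0 ≤ L a n,
      ∀ r : ℝ, 1 < r → ∀ᶠ n : ℕ in atTop, n ∈ S → -(r ^ n) ≤ L a n]
  strip : ∀ κ : ℝ, 0 ≤ κ → κ < 1 →
      List.TFAE [ZeroFree Λ (x + κ / 2), ∀ κ' : ℝ, κ < κ' → SmallL L κ', ∀ κ' : ℝ, κ < κ' → LowerS S L κ']
  quasi : List.TFAE [∃ d : ℝ, d < 1 / 2 ∧ ZeroFree Λ (x + d), ∃ κ : ℝ, κ < 1 ∧ SmallL L κ,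
      ∃ κ : ℝ, κ < 1 ∧ LowerS S L κ]

theorem spG {Λ : ℂ → ℂ} {v : ℂ} (hκ0 : 1 / 2 ≤ κ0) (hv : v ≠ 0) {x : ℝ}
    (h : P2 κ0 (fun z => v * Λ ((x : ℂ) + z))) {L : ℝ → ℕ → ℝ}
    (hL : ∀ a n, L a n = ∑' ρ : {ρ : ℂ // Λ ρ = 0}, (analyticOrderNatAt Λ ρ : ℝ) *
      (1 - (((ρ : ℂ) - a) / (ρ + a - 2 * x)) ^ n).re) {S : Set ℕ} (hS : IsBohrRecurrent S) :
    SpG Λ L x S := by
  classical
  have hall := allG hκ0 hv h hL
  obtain ⟨m, hm⟩ : ∃ m : ℝ, m = 2 * x := ⟨_, rfl⟩
  have hx : x = m / 2 := by rw [hm]; ring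
  have hL' : L = lam Λ m := by
    funext a n
    rw [hL]
    unfold lam
    rw [hm]
    push_cast
    rfl
  obtain ⟨X, hX⟩ : ∃ X : ℂ → ℂ, X = fun z => v * Λ ((x : ℂ) + z) := ⟨_, rfl⟩
  rw [← hX] at h
  have hX' : X = fun z => v * Λ (((m / 2 : ℝ) : ℂ) + z) := by rw [hX, hx]
  have hz := zsX hκ0 h
  have hP : P2 κ0 (fun z => v * Λ (((m / 2 : ℝ) : ℂ) + z)) := by rw [← hX']; exact h
  -- the coefficients
  have key : ∀ (a : ℝ) (n : ℕ), x + 1 ≤ a → li (MS X) ((a - x) / 2) n = 2 * L a n := by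
    intro a n ha
    rw [li_scale, show 2 * ((a - x) / 2) = a - x by ring, liX_eq' hκ0 h (by linarith), hL', lam_eq hv hP, ← hx, ← hX]
  -- the zeros
  have hzero : ∀ s : ℂ, Λ s = 0 → MS X ((s - x) / 2) ≠ 0 := by
    intro s hs
    unfold MS
    have e : (2 : ℂ) * ((s - x) / 2) = s - x := by ring
    rw [e]
    apply MX_ne h
    rw [hX]
    show v * Λ ((x : ℂ) + (s - x)) = 0
    rw [add_sub_cancel, hs, mul_zero]
  have hfree : ∀ {d : ℝ}, ZeroFree Λ (x + d) → ∀ z, MS X z ≠ 0 → |z.re| ≤ d / 2 := by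
    intro d hd z hz
    unfold MS at hz
    have e : (2 * z : ℂ).re = 2 * z.re := by simp
    have hd' : ZeroFree Λ (m / 2 + d) := by rwa [← hx]
    rcases MX_zero h hz with h1 | h1
    · have h2 := symm_zero hv hP hd' (2 * z) (by rw [← hX']; exact h1)
      rw [e, abs_mul, abs_of_pos (by norm_num : (0:ℝ) < 2)] at h2
      linarith
    · have h2 := symm_zero hv hP hd' (conj (2 * z)) (by rw [← hX']; exact h1)
      rw [Complex.conj_re, e, abs_mul, abs_of_pos (by norm_num : (0:ℝ) < 2)] at h2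
      linarith
  have hb2 : ∀ {a : ℝ}, x + 1 ≤ a → (1 : ℝ) / 2 ≤ (a - x) / 2 := fun ha => by linarith
  -- a bound on `S`
  have bound : ∀ a r r' : ℝ, x + 1 ≤ a → 1 ≤ r → r < r' →
      (∀ᶠ n : ℕ in atTop, n ∈ S → -(r ^ n) ≤ L a n) → ∀ᶠ n : ℕ in atTop, |L a n| ≤ r' ^ n := by
    intro a r r' ha hr hr' h1
    obtain ⟨q, hq1, hq2⟩ := exists_between hr'
    have hr0 : 0 < r := by linarith
    have h2 : ∀ᶠ n : ℕ in atTop, n ∈ S → -(q ^ n) ≤ li (MS X) ((a - x) / 2) n := by
      have hq : 1 < q / r := by rw [lt_div_iff₀ hr0]; linarith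
      filter_upwards [h1, (tendsto_pow_atTop_atTop_of_one_lt hq).eventually_gt_atTop 2] with n hn hn2 hnS
      rw [key a n ha]
      have h3 := hn hnS
      rw [div_pow, lt_div_iff₀ (by positivity)] at hn2
      linarith
    filter_upwards [bound_rec hz (hb2 ha) hS (by linarith) hq2 h2] with n hn
    rw [key a n ha, abs_mul, abs_of_pos (by norm_num : (0:ℝ) < 2)] at hn
    have := abs_nonneg (L a n)
    linarith
  -- exponential rates
  have low : ∀ {κ κ' : ℝ}, 0 ≤ κ' → κ < κ' → LowerS S L κ → LowerL L κ' := by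
    intro κ κ' h0 h1 h2
    obtain ⟨κ1, h3, h4⟩ := exists_between (show κ < κ' from h1)
    refine (h2.and_eventually ((eventually_ge_atTop (x + 1)).and (eventually_gt_atTop (0 : ℝ)))).mono fun a ha => ?_
    obtain ⟨h5, h6, h7⟩ := ha
    refine Blocks.of_eventually ?_
    have e : ∀ (c : ℝ) (n : ℕ), Real.exp (c * n / a) = Real.exp (c / a) ^ n := by
      intro c n
      rw [← Real.exp_nat_mul]
      congr 1
      ring
    rcases le_total 0 κ with hκ | hκ
    · have h8 := bound a (Real.exp (κ / a)) (Real.exp (κ' / a)) h6 (Real.one_le_exp (by positivity))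
        (Real.exp_lt_exp.2 (by gcongr)) (by
          filter_upwards [h5] with n hn hnS
          rw [← e]
          exact hn hnS)
      filter_upwards [h8] with n hn
      rw [e]
      exact (abs_le.1 hn).1
    · rcases h0.eq_or_lt with h9 | h9
      · -- `κ' = 0`
        have h8 : ∀ z, MS X z ≠ 0 → z.re = 0 := by
          intro z hz0
          by_contra hne
          obtain ⟨w, hw0, hw⟩ : ∃ w, MS X w ≠ 0 ∧ w.re < 0 := by
            rcases lt_or_gt_of_ne hne with h10 | h10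
            · exact ⟨z, hz0, h10⟩
            · exact ⟨-z, by rwa [hz.neg], by simpa using h10⟩
          obtain ⟨N, hN⟩ := eventually_atTop.1 h5
          have hlt := one_lt_W (hb2 h6) (hz.strip _ hw0) hw
          obtain ⟨N', hN'⟩ := eventually_atTop.1
            ((tendsto_pow_atTop_atTop_of_one_lt hlt).eventually_gt_atTop 4)
          obtain ⟨n, hnS, hn0, hn⟩ := grow_rec hz (hb2 h6) hw0 hw hS (max N N')
          have h11 := hN n ((le_max_left _ _).trans hn0) hnS
          have h12 := hN' n ((le_max_right _ _).trans hn0)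
          rw [key a n h6] at hn
          have h13 : Real.exp (κ * n / a) ≤ 1 := by
            rw [Real.exp_le_one_iff]
            exact div_nonpos_of_nonpos_of_nonneg (mul_nonpos_of_nonpos_of_nonneg hκ (Nat.cast_nonneg n)) h7.le
          linarith
        filter_upwards [eventually_ge_atTop 1] with n hn
        have h9 := on_line hz (hb2 h6) h8 hn
        rw [key a n h6] at h9
        have := Real.exp_pos (κ' * n / a)
        linarith
      · have h8 := bound a 1 (Real.exp (κ' / a)) h6 le_rfl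
          (by rw [Real.one_lt_exp_iff]; positivity) (by
            filter_upwards [h5] with n hn hnS
            have h13 : Real.exp (κ * n / a) ≤ 1 := by
              rw [Real.exp_le_one_iff]
              exact div_nonpos_of_nonpos_of_nonneg (mul_nonpos_of_nonpos_of_nonneg hκ (Nat.cast_nonneg n)) h7.le
            rw [one_pow]
            linarith [hn hnS])
        filter_upwards [h8] with n hn
        rw [e]
        exact (abs_le.1 hn).1
  have sl : ∀ {κ : ℝ}, SmallL L κ → LowerS S L κ := by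
    intro κ h1
    refine Eventually.frequently ?_
    filter_upwards [h1] with a ha
    filter_upwards [ha] with n hn _
    exact (abs_le.1 hn).1
  refine ⟨fun a s ha hs hre => ?_, bound, fun a ha => ?_, fun κ h0 h1 => ?_, ?_⟩
  · have h1 := hzero s hs
    have h2 : MS X (-((s - x) / 2)) ≠ 0 := by rwa [hz.neg]
    have e0 : ((s - x) / 2 : ℂ).re = (s.re - x) / 2 := by
      rw [show ((s - x) / 2 : ℂ) = (s - x) / ((2 : ℝ) : ℂ) by push_cast; rfl, Complex.div_ofReal_re]
      simp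
    have h4 : (-((s - x) / 2) : ℂ).re < 0 := by
      rw [Complex.neg_re, e0]
      linarith
    have e : ‖W ((a - x) / 2) (-((s - x) / 2))‖ = ‖(s + a - 2 * x) / (s - a)‖ := by
      rw [show (-((s - x) / 2) : ℂ) = (-(s - x)) / 2 by ring, W_half]
      unfold W
      rw [norm_div, norm_div, ← norm_neg (-(s - x) - ((a - x : ℝ) : ℂ)), ← norm_neg (-(s - x) + ((a - x : ℝ) : ℂ))]
      congr 2
      · push_cast; ring
      · push_cast; ring
    have h5 := one_lt_W (hb2 ha) (hz.strip _ h2) h4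
    rw [e] at h5
    refine ⟨h5, fun n₀ => ?_⟩
    obtain ⟨n, h6, h7, h8⟩ := grow_rec hz (hb2 ha) h2 h4 hS n₀
    refine ⟨n, h6, h7, ?_⟩
    rw [e, key a n ha] at h8
    linarith
  · tfae_have 1 → 2 := by
      intro h1 n hn
      have h2 : ∀ z, MS X z ≠ 0 → z.re = 0 := by
        intro z hz0
        have h3 := hfree (d := 0) (fun s hs h0 => by
          have := h1 s h0
          rw [this, add_zero] at hs
          exact lt_irrefl _ hs) z hz0
        rw [zero_div] at h3
        exact abs_eq_zero.1 (le_antisymm h3 (abs_nonneg _))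
      have := on_line hz (hb2 ha) h2 hn
      rw [key a n ha] at this
      linarith
    tfae_have 2 → 3 := by
      intro h1
      filter_upwards [eventually_ge_atTop 1] with n hn _
      exact (h1 n hn).le
    tfae_have 3 → 4 := by
      intro h1 r hr
      filter_upwards [h1] with n hn hnS
      have : 0 < r ^ n := by
        have : 0 < r := by linarith
        positivity
      linarith [hn hnS]
    tfae_have 4 → 1 := by
      intro h1 s hs
      by_contra hne
      have e0 : ((s - x) / 2 : ℂ).re = (s.re - x) / 2 := by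
        rw [show ((s - x) / 2 : ℂ) = (s - x) / ((2 : ℝ) : ℂ) by push_cast; rfl, Complex.div_ofReal_re]
        simp
      have h2 : ((s - x) / 2 : ℂ).re ≠ 0 := by
        rw [e0]
        intro h3
        apply hne
        linarith
      obtain ⟨w, hw0, hw⟩ : ∃ w, MS X w ≠ 0 ∧ w.re < 0 := by
        rcases lt_or_gt_of_ne h2 with h10 | h10
        · exact ⟨_, hzero s hs, h10⟩
        · exact ⟨_, (by rw [hz.neg]; exact hzero s hs : MS X (-((s - x) / 2)) ≠ 0), by
            rw [Complex.neg_re]; linarith⟩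
      have hlt := one_lt_W (hb2 ha) (hz.strip _ hw0) hw
      obtain ⟨r, hr1, hr2⟩ := exists_between hlt
      have hq : 1 < ‖W ((a - x) / 2) w‖ / r := by rw [lt_div_iff₀ (by linarith)]; linarith
      obtain ⟨N, hN⟩ := eventually_atTop.1 ((h1 r hr1).and
        ((tendsto_pow_atTop_atTop_of_one_lt hq).eventually_gt_atTop 4))
      obtain ⟨n, hnS, hn0, hn⟩ := grow_rec hz (hb2 ha) hw0 hw hS N
      obtain ⟨h3, h4⟩ := hN n hn0
      have h5 := h3 hnS
      rw [key a n ha] at hn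
      have hr0 : 0 < r := by linarith
      rw [div_pow, lt_div_iff₀ (by positivity)] at h4
      linarith
    tfae_finish
  · tfae_have 1 ↔ 2 := (hall.strip κ h0 h1).out 0 1
    tfae_have 2 → 3 := fun h2 κ' hκ' => sl (h2 κ' hκ')
    tfae_have 3 → 1 := by
      intro h2
      refine ((hall.strip κ h0 h1).out 2 0).1 fun κ' hκ' => ?_
      obtain ⟨κ1, h3, h4⟩ := exists_between hκ'
      exact low (by linarith) h4 (h2 κ1 h3)
    tfae_finish
  · tfae_have 1 ↔ 2 := hall.quasi.out 0 1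
    tfae_have 2 → 3 := fun ⟨κ, h1, h2⟩ => ⟨κ, h1, sl h2⟩
    tfae_have 3 → 1 := by
      rintro ⟨κ, h1, h2⟩
      obtain ⟨κ', h3, h4⟩ := exists_between (show max κ 0 < 1 from max_lt h1 (by norm_num))
      have h5 := le_max_left κ 0
      have h6 := le_max_right κ 0
      have h7 : (∃ κ : ℝ, κ < 1 ∧ LowerL L κ) → ∃ d : ℝ, d < 1 / 2 ∧ ZeroFree Λ (x + d) := (hall.quasi.out 2 0).1
      exact h7 ⟨κ', h4, low (κ := κ) (by linarith) (by linarith) h2⟩
    tfae_finish

end

end Pool.Agent.U544.LS
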